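import Pool.Agent.H4.AR4

set_option autoImplicit false

namespace Pool.Agent.Results.MP_aca74d_lc.Complete

open Pool.Agent.H11.PT Pool.Agent.H21.ER Pool.Agent.H4.AR

theorem result : (∃ f : Qf → ℕ × List (ℕ × ℕ), PolyTime bits bits f ∧ ∀ φ, ETR φ ↔ AngRes (f φ)) ∧
    ∃ g : ℕ × List (ℕ × ℕ) → Qf, PolyTime bits bits g ∧ ∀ G, AngRes G ↔ ETR (g G) :=
  ⟨hard.imp fun _ h => ⟨h.1.polyTime, h.2⟩, mem, mem_pt.polyTime, mem_iff⟩

end Pool.Agent.Results.MP_aca74d_lc.Complete
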